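import Pool.Agent.H10.TU.Def

/-!
# The Turán problem: linear images and bodies close to a given one

If `F ∈ 𝒜(K)`, `A` is an invertible linear map and `A K ⊆ K' ⊆ μ A K` then `F' = F ∘ Aᵀ ∈ 𝒜(K')` and
`|K'| ∫ F' ≤ μ^d |K| ∫ F`.
-/

set_option autoImplicit false

open MeasureTheory FourierTransform Set
open scoped ENNReal Pointwise

namespace Pool.Agent.H29.TU

open Pool.Agent.H10.TU

variable {V : Type*} [NormedAddCommGroup V] [InnerProductSpace ℝ V] [FiniteDimensional ℝ V]
  [MeasurableSpace V] [BorelSpace V]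

lemma lin_emb {L : V →ₗ[ℝ] V} (hL : LinearMap.det L ≠ 0) : MeasurableEmbedding L :=
  (L.equivOfDetNeZero hL).toContinuousLinearEquiv.toHomeomorph.measurableEmbedding

lemma integral_comp_lin {E : Type*} [NormedAddCommGroup E] [NormedSpace ℝ E] {L : V →ₗ[ℝ] V}
    (hL : LinearMap.det L ≠ 0) (g : V → E) :
    ∫ x, g (L x) = |(LinearMap.det L)⁻¹| • ∫ y, g y := by
  rw [← (lin_emb hL).integral_map, Measure.map_linearMap_addHaar_eq_smul_addHaar volume hL,
    integral_smul_measure, ENNReal.toReal_ofReal (abs_nonneg _)]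

lemma det_adj (L : V →ₗ[ℝ] V) : LinearMap.det (LinearMap.adjoint L) = LinearMap.det L := by
  let b := stdOrthonormalBasis ℝ V
  rw [← LinearMap.det_toMatrix b.toBasis, ← LinearMap.det_toMatrix b.toBasis L,
    LinearMap.toMatrix_adjoint, Matrix.det_conjTranspose]
  simp

lemma fourier_comp_lin {A : V →ₗ[ℝ] V} (hA : LinearMap.det A ≠ 0) (f : V → ℂ) (x : V) :
    𝓕 (fun y => f (LinearMap.adjoint A y)) (A x) = |(LinearMap.det A)⁻¹| • 𝓕 f x := by
  rw [Real.fourier_eq, Real.fourier_eq]
  have h := integral_comp_lin (L := LinearMap.adjoint A) (by rwa [det_adj])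
    (fun y => Real.fourierChar (-(inner ℝ y x)) • f y)
  rw [det_adj] at h
  rw [← h]
  congr 1
  funext y
  rw [LinearMap.adjoint_inner_left]

/-- Transport of an admissible function to a body close to a linear image. -/
theorem near {K K' : Set V} {F : V → ℝ} (hK : IsCompact K) (hF : F ∈ Adm K) {A : V →ₗ[ℝ] V}
    (hA : LinearMap.det A ≠ 0) (h1 : A '' K ⊆ K') {μ : ℝ} (hμ : 0 ≤ μ) (h2 : K' ⊆ μ • (A '' K)) :
    ∃ F' ∈ Adm K', volume.real K' * ∫ x, F' x ≤
      μ ^ Module.finrank ℝ V * (volume.real K * ∫ x, F x) := by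
  obtain ⟨F1, F2, F3, F4, F5⟩ := hF
  have hL : LinearMap.det (LinearMap.adjoint A) ≠ 0 := by rwa [det_adj]
  have cA : Continuous A := A.continuous_of_finiteDimensional
  have cL : Continuous (LinearMap.adjoint A) := (LinearMap.adjoint A).continuous_of_finiteDimensional
  have hAK : IsCompact (A '' K) := hK.image cA
  refine ⟨fun x => F (LinearMap.adjoint A x), ⟨F1.comp cL, ?_, fun x => F3 _, ?_, ?_⟩, ?_⟩
  · have h := (F2.smul_measure (c := ENNReal.ofReal |(LinearMap.det (LinearMap.adjoint A))⁻¹|)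
      ENNReal.ofReal_ne_top)
    rw [← Measure.map_linearMap_addHaar_eq_smul_addHaar volume hL] at h
    exact ((lin_emb hL).integrable_map_iff).1 h
  · show 1 ≤ F (LinearMap.adjoint A 0)
    rw [map_zero]; exact F4
  · refine (closure_minimal ?_ hAK.isClosed).trans h1
    intro ξ hξ
    rw [Function.mem_support] at hξ
    obtain ⟨x, rfl⟩ : ∃ x, A x = ξ := by
      refine ⟨(A.equivOfDetNeZero hA).symm ξ, ?_⟩
      exact (A.equivOfDetNeZero hA).apply_symm_apply ξ
    refine ⟨x, F5 (subset_tsupport _ ?_), rfl⟩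
    rw [Function.mem_support]
    intro h0
    apply hξ
    rw [fourier_comp_lin hA (fun y => (F y : ℂ)) x, h0, smul_zero]
  · rw [integral_comp_lin hL F, det_adj]
    have e1 : volume.real K' ≤ μ ^ Module.finrank ℝ V * (|LinearMap.det A| * volume.real K) := by
      have fin : volume (μ • (A '' K)) ≠ ∞ := by
        rw [Measure.addHaar_smul_of_nonneg volume hμ]
        exact ENNReal.mul_ne_top ENNReal.ofReal_ne_top hAK.measure_lt_top.ne
      calc volume.real K' ≤ volume.real (μ • (A '' K)) := measureReal_mono h2 fin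
        _ = μ ^ Module.finrank ℝ V * (|LinearMap.det A| * volume.real K) := by
          rw [Measure.real, Measure.addHaar_smul_of_nonneg volume hμ,
            Measure.addHaar_image_linearMap, ENNReal.toReal_mul, ENNReal.toReal_mul,
            ENNReal.toReal_ofReal (by positivity), ENNReal.toReal_ofReal (abs_nonneg _)]
          rfl
    have hI : 0 ≤ ∫ x, F x := integral_nonneg F3
    have hd : 0 < |LinearMap.det A| := abs_pos.2 hA
    calc volume.real K' * (|(LinearMap.det A)⁻¹| • ∫ x, F x)
        ≤ (μ ^ Module.finrank ℝ V * (|LinearMap.det A| * volume.real K)) *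
          (|(LinearMap.det A)⁻¹| • ∫ x, F x) := by
          apply mul_le_mul_of_nonneg_right e1
          rw [smul_eq_mul]; positivity
      _ = μ ^ Module.finrank ℝ V * (volume.real K * ∫ x, F x) := by
          rw [smul_eq_mul, abs_inv]
          field_simp

end Pool.Agent.H29.TU
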